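import Mathlib

set_option autoImplicit false
open scoped commutatorElement

namespace Pool.Agent.H.MP_5a0037_al

structure Filt {Γ : Type*} [Group Γ] (P : ℕ → Γ → Prop) : Prop where
  one : ∀ i, P i 1
  mul : ∀ i x y, P i x → P i y → P i (x * y)
  inv : ∀ i x, P i x → P i x⁻¹
  anti : ∀ i x, P (i + 1) x → P i x
  comm : ∀ i j x y, P i x → P j y → P (i + j) ⁅x, y⁆

lemma Filt.zero {Γ : Type*} [Group Γ] {P : ℕ → Γ → Prop} (h : Filt P) :
    ∀ i x, P i x → P 0 x := by
  intro i
  induction i with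
  | zero => exact fun _ h => h
  | succ i ih => exact fun x hx => ih x (h.anti i x hx)

lemma Filt.conj {Γ : Type*} [Group Γ] {P : ℕ → Γ → Prop} (h : Filt P) {i k : ℕ} {g x : Γ}
    (hg : P i g) (hx : P k x) : P k (g * x * g⁻¹) := by
  have := h.mul k _ _ (by simpa using h.comm 0 k g x (h.zero i g hg) hx) hx
  convert this using 1
  simp only [commutatorElement_def]; group

variable {G : Type*} [Group G]

def HK (F : ℕ → Subgroup G) : (d : ℕ) → ℕ → ((Fin d → Bool) → G) → Prop
  | 0, i, γ => γ default ∈ F i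
  | d + 1, i, γ => HK F d i (fun s => γ (Fin.cons false s)) ∧
      HK F d (i + 1) ((fun s => γ (Fin.cons false s))⁻¹ * fun s => γ (Fin.cons true s))

lemma HK_filt {F : ℕ → Subgroup G} (hF : Filt fun i x => x ∈ F i) : ∀ d, Filt (HK F d) := by
  intro d
  induction d with
  | zero =>
    exact ⟨fun i => hF.one i, fun i x y => hF.mul i _ _, fun i x => hF.inv i _,
      fun i x => hF.anti i _, fun i j x y => hF.comm i j _ _⟩
  | succ d ih =>
    refine ⟨fun i => ⟨ih.one i, ?_⟩, fun i x y hx hy => ⟨ih.mul i _ _ hx.1 hy.1, ?_⟩,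
      fun i x hx => ⟨ih.inv i _ hx.1, ?_⟩, fun i x hx => ⟨ih.anti _ _ hx.1, ih.anti _ _ hx.2⟩,
      fun i j x y hx hy => ⟨ih.comm i j _ _ hx.1 hy.1, ?_⟩⟩
    · convert ih.one (i + 1) using 1
      ext s; simp
    · convert ih.mul _ _ _ (ih.conj (ih.inv _ _ hy.1) hx.2) hy.2 using 1
      ext s; simp [mul_assoc]
    · convert ih.conj hx.1 (ih.inv _ _ hx.2) using 1
      ext s; simp [mul_assoc]
    · have y1 := ih.mul _ _ _ hy.1 (ih.anti _ _ hy.2)
      have a1 := ih.comm _ _ _ _ hx.2 y1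
      have a2 := ih.comm _ _ _ _ hx.1 hy.2
      rw [add_right_comm] at a1
      have := ih.mul (i + j + 1) _ _
        (ih.conj (ih.inv _ _ (ih.comm _ _ _ _ hx.1 hy.1)) (ih.conj hx.1 a1)) (ih.conj hy.1 a2)
      convert this using 1
      ext s
      simp only [commutatorElement_def, Pi.mul_apply, Pi.inv_apply]
      group

lemma HK_mono {F F' : ℕ → Subgroup G} (h : ∀ i, F i ≤ F' i) :
    ∀ d i γ, HK F d i γ → HK F' d i γ := by
  intro d
  induction d with
  | zero => exact fun i γ hγ => h i hγ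
  | succ d ih => exact fun i γ hγ => ⟨ih _ _ hγ.1, ih _ _ hγ.2⟩

lemma HK_of_mem {F : ℕ → Subgroup G} (K : Subgroup G) (h : ∀ i, K ≤ F i) :
    ∀ d i (γ : (Fin d → Bool) → G), (∀ s, γ s ∈ K) → HK F d i γ := by
  intro d
  induction d with
  | zero => exact fun i γ hγ => h i (hγ _)
  | succ d ih =>
    exact fun i γ hγ => ⟨ih _ _ fun s => hγ _, ih _ _ fun s => K.mul_mem (K.inv_mem (hγ _)) (hγ _)⟩

lemma HK_iInf {ι : Type*} {F : ι → ℕ → Subgroup G} (K : Subgroup G) :
    ∀ d i (γ : (Fin d → Bool) → G), (∀ s, γ s ∈ K) → (∀ y, HK (F y) d i γ) →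
      HK (fun i => K ⊓ ⨅ y, F y i) d i γ := by
  intro d
  induction d with
  | zero => exact fun i γ h1 h2 => ⟨h1 _, Subgroup.mem_iInf.2 h2⟩
  | succ d ih =>
    exact fun i γ h1 h2 => ⟨ih _ _ (fun s => h1 _) fun y => (h2 y).1,
      ih _ _ (fun s => K.mul_mem (K.inv_mem (h1 _)) (h1 _)) fun y => (h2 y).2⟩

lemma HK_lift {F F' : ℕ → Subgroup G} (K : Subgroup G) [hK : K.Normal]
    (h : ∀ i, ∀ g ∈ F i, ∃ g' ∈ F' i, g'⁻¹ * g ∈ K) :
    ∀ d i γ, HK F d i γ → ∃ γ', HK F' d i γ' ∧ ∀ s, (γ' s)⁻¹ * γ s ∈ K := by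
  intro d
  induction d with
  | zero =>
    intro i γ hγ
    obtain ⟨g', h1, h2⟩ := h i _ hγ
    exact ⟨fun _ => g', h1, fun s => by rwa [Subsingleton.elim s default]⟩
  | succ d ih =>
    intro i γ hγ
    obtain ⟨a, ha, ha'⟩ := ih _ _ hγ.1
    obtain ⟨b, hb, hb'⟩ := ih _ _ hγ.2
    refine ⟨fun s => if s 0 then a (Fin.tail s) * b (Fin.tail s) else a (Fin.tail s), ⟨?_, ?_⟩, ?_⟩
    · simpa using ha
    · convert hb using 1
      ext s; simp
    · intro s
      rw [← Fin.cons_self_tail s]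
      generalize Fin.tail s = t
      cases s 0
      · simpa using ha' t
      · have := K.mul_mem (hK.conj_mem _ (ha' t) (b t)⁻¹) (hb' t)
        simpa [mul_assoc] using this

lemma HK_const {F : ℕ → Subgroup G} : ∀ d i (g : G), g ∈ F i → HK F d i fun _ => g := by
  intro d
  induction d with
  | zero => exact fun i g hg => hg
  | succ d ih =>
    intro i g hg
    refine ⟨ih _ _ hg, ?_⟩
    convert ih (i + 1) 1 (one_mem _) using 1
    ext s; simp

lemma HK_edge {F : ℕ → Subgroup G} (h0 : F 0 = ⊤) (h1 : F 1 = ⊤) (a b : G) :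
    ∀ d (k : Fin d), HK F d 0 fun s => if s k then b else a := by
  intro d
  induction d with
  | zero => exact fun k => k.elim0
  | succ d ih =>
    intro k
    refine Fin.cases ⟨?_, ?_⟩ (fun k => ⟨?_, ?_⟩) k
    · simpa using HK_const d 0 a (h0 ▸ Subgroup.mem_top _)
    · convert HK_const d 1 (a⁻¹ * b) (h1 ▸ Subgroup.mem_top _) using 1
      ext s; simp
    · simpa using ih k
    · convert HK_const (F := F) d 1 1 (one_mem _) using 1
      ext s; by_cases h : s k <;> simp [h]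

lemma HK_corner {F : ℕ → Subgroup G} (H : Subgroup G) (W : ℕ) (hW : ∀ i, W ≤ i → F i ≤ H) :
    ∀ d i (γ : (Fin d → Bool) → G), W ≤ i + d → HK F d i γ →
      (∀ s, s ≠ (fun _ => true) → γ s ∈ H) → γ (fun _ => true) ∈ H := by
  intro d
  induction d with
  | zero =>
    intro i γ h hγ _
    rw [Subsingleton.elim (fun _ => true) default]
    exact hW i h hγ
  | succ d ih =>
    intro i γ h hγ hs
    have h0 : ∀ s, γ (Fin.cons false s) ∈ H := fun s => hs _ fun e => by simpa using congrFun e 0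
    have := ih (i + 1) _ (by omega) hγ.2 fun s hne =>
      H.mul_mem (H.inv_mem (h0 s)) (hs _ fun e => hne (funext fun k => by
        simpa using congrFun e k.succ))
    have h2 := H.mul_mem (h0 fun _ => true) this
    have e : (Fin.cons true fun _ => true : Fin (d + 1) → Bool) = fun _ => true := by
      ext k; refine Fin.cases rfl (fun _ => rfl) k
    simpa [e] using h2

end Pool.Agent.H.MP_5a0037_al
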