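import Pool.Agent.H.MP_5a0037_al.Step

set_option autoImplicit false
open scoped commutatorElement Pointwise

namespace Pool.Agent.H.MP_5a0037_al

variable {G : Type*} [Group G] {Q : Type*} [MulAction G Q]

def orb (N : Subgroup G) (x : Q) : Set Q := {y | ∃ z ∈ N, z • x = y}

lemma orb_smul (N : Subgroup G) [hN : N.Normal] (g : G) (x : Q) :
    orb N (g • x) = g • orb N x := by
  ext y
  constructor
  · rintro ⟨z, hz, rfl⟩
    refine ⟨(g⁻¹ * z * g⁻¹⁻¹) • x, ⟨_, hN.conj_mem z hz g⁻¹, rfl⟩, ?_⟩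
    simp [mul_smul]
  · rintro ⟨_, ⟨z, hz, rfl⟩, rfl⟩
    exact ⟨g * z * g⁻¹, hN.conj_mem z hz g, by simp [mul_smul]⟩

lemma orb_mem {N : Subgroup G} {w : G} (hw : w ∈ N) (x : Q) : orb N (w • x) = orb N x := by
  ext y
  constructor
  · rintro ⟨z, hz, rfl⟩
    exact ⟨z * w, mul_mem hz hw, mul_smul _ _ _⟩
  · rintro ⟨z, hz, rfl⟩
    exact ⟨z * w⁻¹, mul_mem hz (inv_mem hw), by simp [mul_smul]⟩

lemma orb_eq {N : Subgroup G} {x y : Q} (h : orb N x = orb N y) : ∃ z ∈ N, z • y = x := by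
  have : x ∈ orb N x := ⟨1, one_mem _, one_smul _ _⟩
  rwa [h] at this

variable (Q) in
def KK (N : Subgroup G) : Subgroup G := ⨅ y : Q, MulAction.stabilizer G (orb N y)

lemma mem_KK {N : Subgroup G} (g : G) : g ∈ KK Q N ↔ ∀ y : Q, g • orb N y = orb N y := by
  simp [KK, Subgroup.mem_iInf]

lemma KK_normal (N : Subgroup G) [N.Normal] : (KK Q N).Normal :=
  ⟨fun k hk g => (mem_KK _).2 fun y => by
    rw [mul_smul, mul_smul, ← orb_smul N g⁻¹, (mem_KK _).1 hk, orb_smul, smul_inv_smul]⟩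

lemma le_KK (N : Subgroup G) [N.Normal] : N ≤ KK Q N := fun k hk => (mem_KK _).2 fun y => by
  rw [← orb_smul, orb_mem hk]

lemma KK_ex {N : Subgroup G} [N.Normal] {k : G} (hk : k ∈ KK Q N) (y : Q) :
    ∃ z ∈ N, z • y = k • y := orb_eq (by rw [orb_smul, (mem_KK _).1 hk])

theorem main_ind {c : ℕ} (hc : Subgroup.upperCentralSeries G c = ⊤) :
    ∀ t j, j + t = c → ∃ F : ℕ → Subgroup G, (Filt fun i x => x ∈ F i) ∧ F 0 = ⊤ ∧ F 1 = ⊤ ∧
      (∀ i, KK Q (Subgroup.upperCentralSeries G j) ≤ F i) ∧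
      (∀ i, 2 * (2 * c) ^ t ≤ i → F i ≤ KK Q (Subgroup.upperCentralSeries G j)) ∧
      ∀ (e : Q) (L R : Q → G), (∀ x y, L x • y = R y • x) → (∀ x, L x • e = x) →
        (∀ x, R x • e = x) → ∀ d γ, HK F d 0 γ → HK F d 0 fun s => L (γ s • e) := by
  intro t
  induction t with
  | zero =>
    intro j hj
    obtain rfl : j = c := by omega
    refine ⟨fun _ => ⊤, ⟨?_, ?_, ?_, ?_, ?_⟩, rfl, rfl, fun _ => le_top, fun i _ => ?_, ?_⟩
    any_goals (intros; trivial)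
    · exact hc.ge.trans (le_KK _)
    · exact fun e L R _ _ _ d γ _ => HK_of_mem ⊤ (fun _ => le_rfl) d 0 _ fun _ => trivial
  | succ t ih =>
    intro j hj
    obtain ⟨F, hF, h0, h1, hKF, hFK, hcl⟩ := ih (j + 1) (by omega)
    haveI := KK_normal (Q := Q) (Subgroup.upperCentralSeries G (j + 1))
    have hW : 2 ≤ 2 * (2 * c) ^ t := Nat.le_mul_of_pos_right _ (pow_pos (by omega) _)
    refine Exists.elim (step (orb (Subgroup.upperCentralSeries G j) : Q → Set Q)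
      (orb_smul _) (Z := Subgroup.upperCentralSeries G (j + 1))
      (K := KK Q (Subgroup.upperCentralSeries G (j + 1)))
      (K' := KK Q (Subgroup.upperCentralSeries G j)) ?_ ?_ (le_KK _) mem_KK ?_ hW hc hF h0 h1
      hKF hFK) ?_
    rotate_right
    · rintro F'' ⟨a1, a2, a3, a4, a5, a6⟩
      refine ⟨F'', a1, a2, a3, a4, fun i hi => a5 i ?_, fun e L R b1 b2 b3 d =>
        a6 e L R b1 b2 b3 d (hcl e L R b1 b2 b3 d)⟩
      calc 2 * c * (2 * (2 * c) ^ t) = 2 * (2 * c) ^ (t + 1) := by ring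
        _ ≤ i := hi
    · intro z hz g y
      rw [← orb_smul, ← orb_smul, ← orb_smul, ← orb_smul,
        ← orb_mem (Subgroup.mem_upperCentralSeries_succ_iff.1 hz g) (g • z • y)]
      congr 1
      simp [commutatorElement_def, mul_smul]
    · intro k hk y
      obtain ⟨z, hz, e⟩ := KK_ex hk y
      exact ⟨z, hz, by rw [← orb_smul, ← orb_smul, e]⟩
    · intro k hk
      refine (mem_KK _).2 fun y => ?_
      obtain ⟨z, hz, e⟩ := KK_ex hk y
      rw [← orb_smul, ← e, orb_mem (Subgroup.upperCentralSeries_mono G (Nat.le_succ j) hz)]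

theorem main {c : ℕ} (hc : Subgroup.upperCentralSeries G c = ⊤) [MulOneClass Q]
    (L R : Q → G) (hL : ∀ x y, L x • y = x * y) (hR : ∀ x y, R x • y = y * x)
    (n : ℕ) (hn : 2 * (2 * c) ^ c ≤ n) (m : ℕ) (p : (Fin n → Fin m → Q) → (Fin m → Q) → Q)
    (hp : ∀ S : Set ((Fin n → Fin m → Q) → (Fin m → Q) → Q),
          (∀ (i : Fin n) (j : Fin m), (fun (x : Fin n → Fin m → Q) (_ : Fin m → Q) => x i j) ∈ S) →
          (∀ j : Fin m, (fun (_ : Fin n → Fin m → Q) (y : Fin m → Q) => y j) ∈ S) →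
          (∀ q : Q, (fun (_ : Fin n → Fin m → Q) (_ : Fin m → Q) => q) ∈ S) →
          (∀ f ∈ S, ∀ h ∈ S, (fun (x : Fin n → Fin m → Q) (y : Fin m → Q) => f x y * h x y) ∈ S) →
          (∀ f ∈ S, ∀ h ∈ S, ∀ r : (Fin n → Fin m → Q) → (Fin m → Q) → Q,
            (∀ x y, f x y * r x y = h x y) → r ∈ S) →
          (∀ f ∈ S, ∀ h ∈ S, ∀ r : (Fin n → Fin m → Q) → (Fin m → Q) → Q,
            (∀ x y, r x y * f x y = h x y) → r ∈ S) →
          p ∈ S)
    (a b : Fin n → Fin m → Q) (u v : Fin m → Q)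
    (hs : ∀ s : Fin n → Bool, s ≠ (fun _ => true) →
      p (fun i => if s i then b i else a i) u = p (fun i => if s i then b i else a i) v) :
    p b u = p b v := by
  obtain ⟨F, hF, h0, h1, -, hFK, hcl⟩ := main_ind (Q := Q) hc c 0 (by omega)
  have H := HK_filt hF (n + 1)
  have cL := hcl 1 L R (by simp [hL, hR]) (by simp [hL]) (by simp [hR]) (n + 1)
  have cR := hcl 1 R L (by simp [hL, hR]) (by simp [hR]) (by simp [hL]) (n + 1)
  refine Exists.elim (hp {f | ∃ γ, HK F (n + 1) 0 γ ∧ ∀ s, γ s • (1 : Q) =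
      f (fun i => if s i.succ then b i else a i) (if s 0 then v else u)} ?_ ?_ ?_ ?_ ?_ ?_) ?_
  rotate_right
  · rintro γ ⟨hγ, he⟩
    have key : ∀ s : Fin n → Bool, (γ (Fin.cons false s))⁻¹ * γ (Fin.cons true s) ∈
        MulAction.stabilizer G (1 : Q) ↔
        p (fun i => if s i then b i else a i) v = p (fun i => if s i then b i else a i) u := by
      intro s
      rw [MulAction.mem_stabilizer_iff, mul_smul, inv_smul_eq_iff, he, he]
      simp
    have := HK_corner (MulAction.stabilizer G (1 : Q)) _ (fun i hi g hg => by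
      obtain ⟨z, hz, e⟩ := KK_ex (hFK i hi hg) (1 : Q)
      rw [Subgroup.upperCentralSeries_zero, Subgroup.mem_bot] at hz
      rw [MulAction.mem_stabilizer_iff, ← e, hz, one_smul]) n 1 _ (by omega) hγ.2
      fun s h => (key s).2 (hs s h).symm
    simpa using ((key _).1 this).symm
  · intro i j
    refine ⟨_, HK_edge h0 h1 (L (a i j)) (L (b i j)) _ i.succ, fun s => ?_⟩
    by_cases h : s i.succ <;> simp [h, hL]
  · intro j
    refine ⟨_, HK_edge h0 h1 (L (u j)) (L (v j)) _ 0, fun s => ?_⟩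
    by_cases h : s 0 <;> simp [h, hL]
  · intro q
    exact ⟨_, HK_const _ 0 (L q) (h0 ▸ Subgroup.mem_top _), fun s => by simp [hL]⟩
  · rintro f ⟨γ, hγ, e1⟩ h ⟨δ, hδ, e2⟩
    exact ⟨_, H.mul _ _ _ (cL _ hγ) hδ, fun s => by simp [mul_smul, hL, e1, e2]⟩
  · rintro f ⟨γ, hγ, e1⟩ h ⟨δ, hδ, e2⟩ r hr
    refine ⟨_, H.mul _ _ _ (H.inv _ _ (cL _ hγ)) hδ, fun s => ?_⟩
    simp only [Pi.mul_apply, Pi.inv_apply, mul_smul, inv_smul_eq_iff, hL, e1, e2, hr]
  · rintro f ⟨γ, hγ, e1⟩ h ⟨δ, hδ, e2⟩ r hr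
    refine ⟨_, H.mul _ _ _ (H.inv _ _ (cR _ hγ)) hδ, fun s => ?_⟩
    simp only [Pi.mul_apply, Pi.inv_apply, mul_smul, inv_smul_eq_iff, hR, e1, e2, hr]

end Pool.Agent.H.MP_5a0037_al
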