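import Pool.Agent.H.MP_5a0037_al.HK

set_option autoImplicit false
open scoped commutatorElement

namespace Pool.Agent.H.MP_5a0037_al

variable {G : Type*} [Group G]

lemma exists_Y (K : Subgroup G) [K.Normal] {c : ℕ} (h : Subgroup.upperCentralSeries G c = ⊤) :
    ∃ Y : ℕ → Subgroup G, Y 0 = K ∧ Y c = ⊤ ∧ Monotone Y ∧
      ∀ r x, x ∈ Y (r + 1) ↔ ∀ g, ⁅x, g⁆ ∈ Y r := by
  refine ⟨fun r => (Subgroup.upperCentralSeries (G ⧸ K) r).comap (QuotientGroup.mk' K),
    ?_, ?_, ?_, ?_⟩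
  · simp
  · have := Subgroup.upperCentralSeries.map (QuotientGroup.mk'_surjective K) c
    rw [h, Subgroup.map_le_iff_le_comap] at this
    exact top_le_iff.1 this
  · exact fun a b hab => Subgroup.comap_mono (Subgroup.upperCentralSeries_mono _ hab)
  · intro r x
    simp only [Subgroup.mem_comap, Subgroup.mem_upperCentralSeries_succ_iff, map_commutatorElement]
    exact ⟨fun H g => H _, fun H g => by
      obtain ⟨g, rfl⟩ := QuotientGroup.mk'_surjective K g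
      exact H g⟩

lemma filt_E {F Y : ℕ → Subgroup G} (hF : Filt fun i x => x ∈ F i) {K : Subgroup G} {W c : ℕ}
    (hW : 0 < W) (hFK : ∀ i, W ≤ i → F i ≤ K) (hKK : ∀ x ∈ K, ∀ y ∈ K, ⁅x, y⁆ ∈ Y 0)
    (hY0 : (Y 0).Normal) (hmono : Monotone Y)
    (hY : ∀ r x, x ∈ Y (r + 1) ↔ ∀ g, ⁅x, g⁆ ∈ Y r) (E : ℕ) :
    Filt fun i x => x ∈ F i ⊓ Y (c - (i - E) / W) := by
  have key : ∀ i k, k < W → ∀ x ∈ Y (c - (i - E) / W), ∀ g,
      ⁅x, g⁆ ∈ Y (c - (i + k - E) / W) := by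
    intro i k hk x hx g
    have h1 : (i + k - E) / W ≤ (i - E) / W + 1 := by
      rw [← Nat.add_div_right _ hW]
      exact Nat.div_le_div_right (by omega)
    rcases h2 : c - (i - E) / W with _ | a
    · rw [h2] at hx
      refine hmono (Nat.zero_le _) ?_
      rw [commutatorElement_def, mul_assoc, mul_assoc, ← mul_assoc g]
      exact mul_mem hx (hY0.conj_mem _ (inv_mem hx) g)
    · rw [h2] at hx
      exact hmono (by omega) ((hY a x).1 hx g)
  refine ⟨fun i => one_mem _, fun i x y => mul_mem, fun i x => inv_mem,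
    fun i x hx => ⟨hF.anti _ _ hx.1, hmono ?_ hx.2⟩,
    fun i j x y hx hy => ⟨hF.comm _ _ _ _ hx.1 hy.1, ?_⟩⟩
  · exact Nat.sub_le_sub_left (Nat.div_le_div_right (by omega)) _
  · by_cases hj : j < W
    · exact key i j hj x hx.2 y
    · by_cases hi : i < W
      · rw [← commutatorElement_inv, add_comm]
        exact Subgroup.inv_mem _ (key j i hi y hy.2 x)
      · exact hmono (Nat.zero_le _) (hKK x (hFK i (by omega) hx.1) y (hFK j (by omega) hy.1))

section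
variable {X : Type*} [MulAction G X] {Z : Subgroup G}

lemma inv_mul_act {P : Set X} (hP : ∀ (g : G), ∀ q ∈ P, g • q ∈ P)
    (hZ : ∀ z ∈ Z, ∀ g : G, ∀ q ∈ P, z • g • q = g • z • q) {q : X} (hq : q ∈ P)
    {a b z w : G} (hz : z ∈ Z) (hw : w ∈ Z) (ha : a • q = z • q) (hb : b • q = w • q) :
    (a⁻¹ * b) • q = (z⁻¹ * w) • q := by
  have h1 : a⁻¹ • q = z⁻¹ • q := by
    rw [eq_inv_smul_iff, hZ z hz _ _ hq, ← ha, inv_smul_smul]
  rw [mul_smul, mul_smul, hb, ← hZ w hw _ _ hq, h1, hZ w hw _ _ hq]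

lemma transfer {P : Set X} (hP : ∀ (g : G), ∀ q ∈ P, g • q ∈ P)
    (hZ : ∀ z ∈ Z, ∀ g : G, ∀ q ∈ P, z • g • q = g • z • q) {q : X} (hq : q ∈ P)
    {F : ℕ → Subgroup G} {D : ℕ} (hD : ∀ i, D ≤ i → F i ≤ MulAction.stabilizer G q) :
    ∀ d i (β κ : (Fin d → Bool) → G), HK F d i β →
      (∀ s, ∃ z ∈ Z, κ s • q = z • q ∧ β s • q = z • q) →
      HK (fun i => if i < D then ⊤ else MulAction.stabilizer G q) d i κ := by
  intro d
  induction d with
  | zero =>
    intro i β κ hβ h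
    show κ default ∈ (if i < D then ⊤ else MulAction.stabilizer G q)
    split_ifs with hi
    · trivial
    · obtain ⟨z, -, h1, h2⟩ := h default
      have := hD i (by omega) hβ
      rw [MulAction.mem_stabilizer_iff] at this ⊢
      rw [h1, ← h2, this]
  | succ d ih =>
    intro i β κ hβ h
    refine ⟨ih _ _ _ hβ.1 fun s => h _, ih _ _ _ hβ.2 fun s => ?_⟩
    obtain ⟨z, hz, h1, h2⟩ := h (Fin.cons false s)
    obtain ⟨w, hw, h3, h4⟩ := h (Fin.cons true s)
    exact ⟨z⁻¹ * w, mul_mem (inv_mem hz) hw, inv_mul_act hP hZ hq hz hw h1 h3,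
      inv_mul_act hP hZ hq hz hw h2 h4⟩

end

lemma step {Q X : Type*} [MulAction G Q] [MulAction G X] (π : Q → X)
    (hπ : ∀ (g : G) x, π (g • x) = g • π x) {Z K K' : Subgroup G} [K.Normal]
    (hZ : ∀ z ∈ Z, ∀ (g : G) y, z • g • π y = g • z • π y)
    (hK : ∀ k ∈ K, ∀ y, ∃ z ∈ Z, k • π y = z • π y) (hZK : Z ≤ K)
    (hK' : ∀ g, g ∈ K' ↔ ∀ y, g • π y = π y) (hK'K : K' ≤ K)
    {c W : ℕ} (hW : 2 ≤ W) (hc : Subgroup.upperCentralSeries G c = ⊤)
    {F : ℕ → Subgroup G} (hF : Filt fun i x => x ∈ F i) (h0 : F 0 = ⊤) (h1 : F 1 = ⊤)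
    (hKF : ∀ i, K ≤ F i) (hFK : ∀ i, W ≤ i → F i ≤ K) :
    ∃ F'' : ℕ → Subgroup G, (Filt fun i x => x ∈ F'' i) ∧ F'' 0 = ⊤ ∧ F'' 1 = ⊤ ∧
      (∀ i, K' ≤ F'' i) ∧ (∀ i, 2 * c * W ≤ i → F'' i ≤ K') ∧
      ∀ (e : Q) (L R : Q → G), (∀ x y, L x • y = R y • x) → (∀ x, L x • e = x) →
        (∀ x, R x • e = x) → ∀ d,
        (∀ γ, HK F d 0 γ → HK F d 0 fun s => L (γ s • e)) →
        ∀ γ, HK F'' d 0 γ → HK F'' d 0 fun s => L (γ s • e) := by
  haveI hN : K'.Normal := ⟨fun k hk g => (hK' _).2 fun y => by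
    rw [mul_smul, mul_smul, ← hπ g⁻¹, (hK' _).1 hk, hπ, smul_inv_smul]⟩
  obtain ⟨Y, hY0, hYc, hmono, hY⟩ := exists_Y K' hc
  have hP : ∀ (g : G), ∀ q ∈ Set.range π, g • q ∈ Set.range π := by
    rintro g _ ⟨y, rfl⟩; exact ⟨g • y, hπ _ _⟩
  have hZ' : ∀ z ∈ Z, ∀ g : G, ∀ q ∈ Set.range π, z • g • q = g • z • q := by
    rintro z hz g _ ⟨y, rfl⟩; exact hZ z hz g y
  have hcomm : ∀ x y : G, (∀ t, x • y • π t = y • x • π t) → ⁅x, y⁆ ∈ K' := by
    intro x y h
    refine (hK' _).2 fun t => ?_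
    have := h ((x⁻¹ * y⁻¹) • t)
    rw [hπ] at this
    rw [commutatorElement_def, mul_assoc (x * y), mul_smul, mul_smul, this]
    simp [mul_smul]
  have hKK : ∀ x ∈ K, ∀ y ∈ K, ⁅x, y⁆ ∈ Y 0 := by
    intro x hx y hy
    rw [hY0]
    refine hcomm x y fun t => ?_
    obtain ⟨z, hz, e1⟩ := hK x hx t
    obtain ⟨w, hw, e2⟩ := hK y hy t
    rw [e2, ← hZ w hw, e1, ← hZ z hz y, e2, hZ w hw]
  have hZY : Z ≤ Y 1 := fun z hz => (hY 0 z).2 fun g => hY0 ▸ hcomm z g (hZ z hz g)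
  have hK'Y : ∀ r, K' ≤ Y r := fun r => hY0 ▸ hmono (Nat.zero_le r)
  have hWpos : 0 < W := by omega
  have fE := fun E => filt_E (c := c) hF hWpos hFK hKK (hY0 ▸ hN) hmono hY E
  set FE : ℕ → ℕ → Subgroup G := fun E i => F i ⊓ Y (c - (i - E) / W) with hFE
  have low : ∀ E i, i < E + W → FE E i = F i := by
    intro E i hi
    have : (i - E) / W = 0 := Nat.div_eq_of_lt (by omega)
    simp [hFE, this, hYc]
  have high : ∀ E i, E + c * W ≤ i → FE E i ≤ K' := by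
    intro E i hi
    have : c ≤ (i - E) / W := (Nat.le_div_iff_mul_le hWpos).2 (by omega)
    have h2 : c - (i - E) / W = 0 := by omega
    simp only [hFE, h2, hY0]
    exact inf_le_right
  have kE : ∀ E i, K' ≤ FE E i := fun E i => le_inf (hK'K.trans (hKF i)) (hK'Y _)
  have mE : ∀ i, FE 0 i ≤ FE (c * W) i := fun i =>
    inf_le_inf le_rfl (hmono (Nat.sub_le_sub_left (Nat.div_le_div_right (by omega)) _))
  have lift : ∀ d γ, HK F d 0 γ → ∃ γ', HK (FE 0) d 0 γ' ∧ ∀ s, (γ' s)⁻¹ * γ s ∈ K := by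
    refine fun d γ => HK_lift K (fun i g hg => ?_) d 0 γ
    by_cases hi : i < W
    · exact ⟨g, by rwa [low 0 i (by omega)], by simp⟩
    · exact ⟨1, one_mem _, by simpa using hFK i (by omega) hg⟩
  have stab : ∀ E y i, E + c * W ≤ i → FE E i ≤ MulAction.stabilizer G (π y) :=
    fun E y i hi g hg => (hK' g).1 (high E i hi hg) y
  refine ⟨FE (c * W), fE _, by rw [low _ _ (by omega), h0], by rw [low _ _ (by omega), h1],
    kE _, fun i hi => high _ i (by nlinarith), ?_⟩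
  intro e L R hLR hL hR d ih
  have H0 := HK_filt (fE 0) d
  have H2 := HK_filt (fE (c * W)) d
  have hb : ∀ γ, HK (FE 0) d 0 γ → HK (FE (c * W)) d 0 fun s => L (γ s • e) := by
    intro γ hγ
    obtain ⟨η, hη, hκ⟩ := lift d _ (ih γ (HK_mono (fun i => inf_le_left) _ _ _ hγ))
    have : HK (FE (c * W)) d 0 fun s => (η s)⁻¹ * L (γ s • e) := by
      refine HK_mono ?_ _ _ _ (HK_iInf (ι := Q)
        (F := fun y i => if i < 0 + c * W then ⊤ else MulAction.stabilizer G (π y)) K d 0 _ hκ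
        fun y => ?_)
      · intro i
        by_cases hi : i < 0 + c * W
        · rw [low _ _ (by omega)]
          exact inf_le_left.trans (hKF i)
        · refine inf_le_right.trans (le_trans (fun g hg => (hK' g).2 fun y => ?_) (kE _ i))
          have := Subgroup.mem_iInf.1 hg y
          rwa [if_neg hi] at this
      · have hR' : HK (FE 0) d 0 fun _ => R y :=
          HK_const d 0 _ (by rw [low _ _ (by omega), h0]; trivial)
        refine transfer hP hZ' ⟨y, rfl⟩ (stab 0 y) d 0 _ _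
          (H0.mul _ _ _ (H0.inv _ _ hη) (H0.conj hR' hγ)) fun s => ?_
        obtain ⟨z, hz, e1⟩ := hK _ (hκ s) y
        refine ⟨z, hz, e1, ?_⟩
        rw [← e1, ← hπ, ← hπ]
        congr 1
        have : (R y)⁻¹ • y = e := by rw [inv_smul_eq_iff, hR]
        simp [mul_smul, hLR, this]
    convert H2.mul _ _ _ (HK_mono mE _ _ _ hη) this using 1
    ext s; simp
  intro γ hγ
  obtain ⟨γ', hγ', hκ⟩ := lift d _ (HK_mono (fun i => inf_le_left) _ _ _ hγ)
  choose z hz hze using fun s => hK _ (hκ s) e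
  have hzH : HK (FE (c * W)) d 0 z := by
    refine HK_mono ?_ _ _ _ (HK_iInf (ι := Unit)
      (F := fun _ i => if i < c * W + c * W then ⊤ else MulAction.stabilizer G (π e)) Z d 0 _ hz
      fun _ => ?_)
    · intro i
      by_cases hi : i < c * W + c * W
      · refine inf_le_left.trans (le_inf (hZK.trans (hKF i)) (hZY.trans (hmono ?_)))
        have : (i - c * W) / W < c := by
          rw [Nat.div_lt_iff_lt_mul hWpos]; omega
        omega
      · refine le_trans (fun g hg => (hK' g).2 fun y => ?_) (kE _ i)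
        have := Subgroup.mem_iInf.1 hg.2 ()
        rw [if_neg hi, MulAction.mem_stabilizer_iff] at this
        rw [← hL y, hπ, hZ g hg.1, this]
    · exact transfer hP hZ' ⟨e, rfl⟩ (stab (c * W) e) d 0 _ _
        (H2.mul _ _ _ (H2.inv _ _ (HK_mono mE _ _ _ hγ')) hγ) fun s => ⟨z s, hz s, rfl, hze s⟩
  have hk : ∀ s, (z s * L (γ' s • e))⁻¹ * L (γ s • e) ∈ K' := by
    intro s
    refine (hK' _).2 fun y => ?_
    have e1 : γ s • π e = z s • γ' s • π e := by
      rw [hZ _ (hz s), ← hze s, ← mul_smul]; simp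
    rw [mul_smul, inv_smul_eq_iff, mul_smul, ← hπ (L _), ← hπ (L _), hLR, hLR, hπ, hπ, hπ, hπ,
      e1, ← hπ (γ' s), hZ _ (hz s)]
  convert H2.mul _ _ _ (H2.mul _ _ _ hzH (hb _ hγ')) (HK_of_mem K' (kE _) d 0 _ hk) using 1
  ext s; simp [mul_assoc]

end Pool.Agent.H.MP_5a0037_al
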